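import Mathlib
import Pool.Agent.Lib.MP_c527bb_lc.K.Defs
import Pool.Agent.Lib.MP_c527bb_lc.K.Inv
import Pool.Agent.Lib.MP_c527bb_lc.K.Cut

set_option autoImplicit false

namespace Pool.Agent.Results.MP_c527bb_lc.Hierarchy

open Pool.Agent.Lib.MP_c527bb_lc.K

/-- No sentence of `TC^1_k` defines `(k + 2)`-connectivity, not even among finite
`(k + 1)`-connected graphs with at least `k + 3` vertices. -/
theorem result (k : ℕ) : ¬ ∃ ψ : Fml k 0, ∀ (V : Type) [Fintype V] (G : SimpleGraph V),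
    k + 3 ≤ Fintype.card V → Conn G (k + 1) → (Sat G ψ ![] ↔ Conn G (k + 2)) := by
  rintro ⟨ψ, hψ⟩
  obtain ⟨M, hM⟩ := sentence (2 * (k + 2)) ψ
  obtain ⟨V, _, G, hG, -⟩ := exists_cut (m := k + 2) (by omega) (k + 1) M (by omega)
  obtain ⟨W, _, H, hH, h2⟩ := exists_cut (m := k + 2) (by omega) k M (by omega)
  have card : ∀ (V : Type) [Fintype V] (G : SimpleGraph V), Base (2 * (k + 2)) G M →
      k + 3 ≤ Fintype.card V := by
    intro V _ G hG
    obtain ⟨v⟩ := hG.ne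
    have h3 := Set.ncard_le_ncard (Set.subset_univ (G.neighborSet v)) (Set.toFinite _)
    rw [hG.reg, Set.ncard_univ, Nat.card_eq_fintype_card] at h3
    omega
  have hG' : Cls (2 * (k + 2)) k G M :=
    ⟨hG.toBase, fun ρ hρ Z hZ => hG.even ρ hρ Z (hZ.trans (Nat.le_succ k))⟩
  exact h2 ((hψ W H (card W H hH.toBase) hH.conn).1
    (hM V W G H hG' hH ((hψ V G (card V G hG.toBase) hG'.conn).2 hG.conn)))

end Pool.Agent.Results.MP_c527bb_lc.Hierarchy
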